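import Mathlib

set_option autoImplicit false

open MeasureTheory

namespace Pool.Agent.Helper513.CU

/-- the centred unit cube in coordinates -/
def Q (m : ℕ) : Set (Fin m → ℝ) := {z | ∀ j, |z j| ≤ 1 / 2}



theorem anderson1_refl (h : ℝ → ENNReal) (hm : Measurable h) (β s : ℝ) :
    ∫⁻ u in Set.Icc (-(1 / 2) : ℝ) (1 / 2), h (s + β * u) =
      ∫⁻ u in Set.Icc (-(1 / 2) : ℝ) (1 / 2), h (s - β * u) := by
  have hf : Measurable (fun x : ℝ => h (s - β * x)) := by fun_prop
  have := (Measure.measurePreserving_neg (volume : Measure ℝ)).setLIntegral_comp_preimage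
    (measurableSet_Icc (a := -(1/2:ℝ)) (b := 1/2)) hf
  rw [← this]
  have e : (Neg.neg : ℝ → ℝ) ⁻¹' (Set.Icc (-(1 / 2) : ℝ) (1 / 2)) = Set.Icc (-(1 / 2) : ℝ) (1 / 2) := by
    ext x
    simp only [Set.mem_preimage, Set.mem_Icc]
    constructor <;> rintro ⟨h1, h2⟩ <;> constructor <;> linarith
  rw [e]
  refine lintegral_congr fun u => ?_
  congr 1
  ring

theorem anderson1_even (h : ℝ → ENNReal) (hm : Measurable h)
    (hh : ∀ s s' : ℝ, |s| ≤ |s'| → h s' ≤ h s) (β s : ℝ) :
    ∫⁻ u in Set.Icc (-(1 / 2) : ℝ) (1 / 2), h (-s - β * u) =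
      ∫⁻ u in Set.Icc (-(1 / 2) : ℝ) (1 / 2), h (s - β * u) := by
  rw [← anderson1_refl h hm β s]
  refine lintegral_congr fun u => ?_
  apply le_antisymm
  · apply hh
    rw [← abs_neg]
    apply le_of_eq
    congr 1
    ring
  · apply hh
    rw [← abs_neg]
    apply le_of_eq
    congr 1
    ring

theorem anderson1_pos (h : ℝ → ENNReal) (hm : Measurable h)
    (hh : ∀ s s' : ℝ, |s| ≤ |s'| → h s' ≤ h s)
    (β : ℝ) (hβ : 0 < β) (s s' : ℝ) (hs0 : 0 ≤ s) (hs : s ≤ s') :
    ∫⁻ u in Set.Icc (-(1 / 2) : ℝ) (1 / 2), h (s' - β * u) ≤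
      ∫⁻ u in Set.Icc (-(1 / 2) : ℝ) (1 / 2), h (s - β * u) := by
  obtain ⟨t, ht⟩ : ∃ t : ℝ, s' - s = β * t := ⟨(s' - s) / β, by field_simp⟩
  have ht0 : 0 ≤ t := by
    by_contra hc
    push Not at hc
    nlinarith
  have hf : Measurable (fun x : ℝ => h (s - β * x)) := by fun_prop
  have hpt : ∀ u : ℝ, u ≤ t / 2 → h (s' - β * u) ≤ h (s + β * u) := by
    intro u hu
    apply hh
    refine le_trans ?_ (le_abs_self _)
    rw [abs_le]
    constructor <;> nlinarith
  rcases le_total 1 t with h1 | h1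
  · rw [← anderson1_refl h hm β s]
    refine setLIntegral_mono (by fun_prop) fun u hu => ?_
    exact hpt u (by linarith [hu.2])
  · have hU : Set.Icc (-(1 / 2) : ℝ) (1 / 2) = Set.Ico (-(1/2):ℝ) (t - 1/2) ∪ Set.Icc (t - 1/2) (1/2) := by
      ext x
      simp only [Set.mem_union, Set.mem_Icc, Set.mem_Ico]
      constructor
      · rintro ⟨a, b⟩
        rcases lt_or_ge x (t - 1/2) with hx | hx
        · exact Or.inl ⟨a, hx⟩
        · exact Or.inr ⟨hx, b⟩
      · rintro (⟨a, b⟩ | ⟨a, b⟩) <;> constructor <;> linarith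
    have hV : Set.Icc (-(1 / 2) : ℝ) (1 / 2) = Set.Ioc (1/2 - t) (1/2:ℝ) ∪ Set.Icc (-(1/2)) (1/2 - t) := by
      ext x
      simp only [Set.mem_union, Set.mem_Icc, Set.mem_Ioc]
      constructor
      · rintro ⟨a, b⟩
        rcases lt_or_ge (1/2 - t) x with hx | hx
        · exact Or.inl ⟨hx, b⟩
        · exact Or.inr ⟨a, hx⟩
      · rintro (⟨a, b⟩ | ⟨a, b⟩) <;> constructor <;> linarith
    have hdU : Disjoint (Set.Ico (-(1/2):ℝ) (t - 1/2)) (Set.Icc (t - 1/2) (1/2)) := by
      rw [Set.disjoint_left]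
      intro x hx hx'
      exact absurd hx.2 (not_lt.2 hx'.1)
    have hdV : Disjoint (Set.Ioc (1/2 - t) (1/2:ℝ)) (Set.Icc (-(1/2)) (1/2 - t)) := by
      rw [Set.disjoint_left]
      intro x hx hx'
      exact absurd hx.1 (not_lt.2 hx'.2)
    rw [show (∫⁻ u in Set.Icc (-(1 / 2) : ℝ) (1 / 2), h (s' - β * u)) =
        (∫⁻ u in Set.Ico (-(1/2):ℝ) (t - 1/2), h (s' - β * u)) +
        ∫⁻ u in Set.Icc (t - 1/2) (1/2), h (s' - β * u) from by
          rw [hU]; exact lintegral_union measurableSet_Icc hdU,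
      show (∫⁻ u in Set.Icc (-(1 / 2) : ℝ) (1 / 2), h (s - β * u)) =
        (∫⁻ u in Set.Ioc (1/2 - t) (1/2:ℝ), h (s - β * u)) +
        ∫⁻ u in Set.Icc (-(1/2)) (1/2 - t), h (s - β * u) from by
          rw [hV]; exact lintegral_union measurableSet_Icc hdV]
    refine add_le_add ?_ ?_
    · have := (Measure.measurePreserving_neg (volume : Measure ℝ)).setLIntegral_comp_preimage
        (measurableSet_Ioc (a := (1/2 - t:ℝ)) (b := 1/2)) hf
      rw [← this]
      have e : (Neg.neg : ℝ → ℝ) ⁻¹' (Set.Ioc (1/2 - t) (1/2:ℝ)) = Set.Ico (-(1/2):ℝ) (t - 1/2) := by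
        ext x
        simp only [Set.mem_preimage, Set.mem_Ioc, Set.mem_Ico]
        constructor <;> rintro ⟨h1, h2⟩ <;> constructor <;> linarith
      rw [e]
      refine setLIntegral_mono (by fun_prop) fun u hu => ?_
      have := hpt u (by linarith [hu.2])
      rwa [show s - β * -u = s + β * u by ring]
    · apply le_of_eq
      have := (measurePreserving_sub_right (volume : Measure ℝ) t).setLIntegral_comp_preimage
        (measurableSet_Icc (a := (-(1/2):ℝ)) (b := 1/2 - t)) hf
      rw [← this]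
      have e : (fun x : ℝ => x - t) ⁻¹' (Set.Icc (-(1/2)) (1/2 - t)) = Set.Icc (t - 1/2) (1/2) := by
        ext x
        simp only [Set.mem_preimage, Set.mem_Icc]
        constructor <;> rintro ⟨h1, h2⟩ <;> constructor <;> linarith
      rw [e]
      refine lintegral_congr fun u => ?_
      congr 1
      linear_combination ht

/-- one-dimensional step: averaging an even function that is nonincreasing in the absolute value over a symmetric interval -/
theorem anderson1 (h : ℝ → ENNReal) (hm : Measurable h) (hh : ∀ s s' : ℝ, |s| ≤ |s'| → h s' ≤ h s)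
    (β : ℝ) (s s' : ℝ) (hs : |s| ≤ |s'|) :
    ∫⁻ u in Set.Icc (-(1 / 2) : ℝ) (1 / 2), h (s' - β * u) ≤
      ∫⁻ u in Set.Icc (-(1 / 2) : ℝ) (1 / 2), h (s - β * u) := by
  have hb : ∀ s : ℝ, ∫⁻ u in Set.Icc (-(1 / 2) : ℝ) (1 / 2), h (s - β * u) =
      ∫⁻ u in Set.Icc (-(1 / 2) : ℝ) (1 / 2), h (s - |β| * u) := by
    intro s
    rcases abs_choice β with hc | hc
    · rw [hc]
    · rw [hc, ← anderson1_refl h hm β s]
      refine lintegral_congr fun u => ?_
      congr 1
      ring
  have hc : ∀ s : ℝ, ∫⁻ u in Set.Icc (-(1 / 2) : ℝ) (1 / 2), h (s - |β| * u) =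
      ∫⁻ u in Set.Icc (-(1 / 2) : ℝ) (1 / 2), h (|s| - |β| * u) := by
    intro s
    rcases abs_choice s with hc | hc
    · rw [hc]
    · rw [hc, anderson1_even h hm hh]
  rw [hb s, hb s', hc s, hc s']
  rcases (abs_nonneg β).eq_or_lt with h0 | h0
  · rw [← h0]
    refine lintegral_mono fun u => ?_
    apply hh
    simpa using hs
  · exact anderson1_pos h hm hh |β| h0 |s| |s'| (abs_nonneg _) hs


/-- restricted Lebesgue measure -/
noncomputable def mu1 : Measure ℝ := volume.restrict (Set.Icc (-(1 / 2) : ℝ) (1 / 2))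

instance : IsFiniteMeasure mu1 := by unfold mu1; infer_instance

noncomputable def Ph (h : ℝ → ENNReal) (m : ℕ) (b : Fin m → ℝ) (s : ℝ) : ENNReal :=
  ∫⁻ z, h (s - ∑ j, b j * z j) ∂(Measure.pi (fun _ : Fin m => mu1))

theorem Ph_zero (h : ℝ → ENNReal) (b : Fin 0 → ℝ) (s : ℝ) : Ph h 0 b s = h s := by
  unfold Ph
  simp [Measure.pi_empty_univ]

theorem Ph_succ (h : ℝ → ENNReal) (hm : Measurable h) (m : ℕ) (b : Fin (m + 1) → ℝ) (s : ℝ) :
    Ph h (m + 1) b s = ∫⁻ u, Ph h m (fun j => b j.succ) (s - b 0 * u) ∂mu1 := by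
  unfold Ph
  have mp := (measurePreserving_piFinSuccAbove (fun _ : Fin (m + 1) => mu1) 0).symm
  have hmeas : Measurable (fun z : Fin (m + 1) → ℝ => h (s - ∑ j, b j * z j)) :=
    hm.comp (by fun_prop)
  rw [← mp.lintegral_comp hmeas, lintegral_prod]
  · refine lintegral_congr (fun u => lintegral_congr (fun z => ?_))
    congr 1
    simp only [MeasurableEquiv.piFinSuccAbove_symm_apply, Fin.insertNthEquiv, Fin.sum_univ_succ,
      Fin.insertNth_zero, Equiv.coe_fn_mk, Fin.cons_succ, Fin.cons_zero]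
    simp only [cast_eq]
    ring
  · exact (hmeas.comp mp.measurable).aemeasurable

theorem Ph_main (h : ℝ → ENNReal) (hm : Measurable h)
    (hh : ∀ s s' : ℝ, |s| ≤ |s'| → h s' ≤ h s) (m : ℕ) : ∀ b : Fin m → ℝ,
    Measurable (Ph h m b) ∧ ∀ s s' : ℝ, |s| ≤ |s'| → Ph h m b s' ≤ Ph h m b s := by
  induction m with
  | zero =>
    intro b
    have e : Ph h 0 b = h := funext (fun s => Ph_zero h b s)
    rw [e]
    exact ⟨hm, hh⟩
  | succ m ih =>
    intro b
    obtain ⟨h1, h2⟩ := ih (fun j => b j.succ)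
    constructor
    · have e : Ph h (m + 1) b = fun s => ∫⁻ u, Ph h m (fun j => b j.succ) (s - b 0 * u) ∂mu1 :=
        funext (fun s => Ph_succ h hm m b s)
      rw [e]
      have h3 : Measurable (fun p : ℝ × ℝ => Ph h m (fun j => b j.succ) (p.1 - b 0 * p.2)) :=
        h1.comp (by fun_prop)
      exact h3.lintegral_prod_right'
    · intro s s' hs
      rw [Ph_succ h hm, Ph_succ h hm]
      exact anderson1 _ h1 h2 (b 0) s s' hs

theorem Q_eq (m : ℕ) : Q m = Set.univ.pi (fun _ : Fin m => Set.Icc (-(1 / 2) : ℝ) (1 / 2)) := by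
  ext z
  simp only [Q, Set.mem_ofPred_eq, Set.mem_pi, Set.mem_univ, true_implies, Set.mem_Icc, abs_le]

theorem Ph_vol (m : ℕ) (b : Fin m → ℝ) (r : ℝ) (s : ℝ) :
    volume {z : Fin m → ℝ | z ∈ Q m ∧ |s - ∑ j, b j * z j| ≤ r} =
      Ph (Set.indicator {v : ℝ | |v| ≤ r} (fun _ => 1)) m b s := by
  unfold Ph
  have h1 : Measure.pi (fun _ : Fin m => mu1) = (volume : Measure (Fin m → ℝ)).restrict (Q m) := by
    rw [Q_eq, volume_pi, Measure.restrict_pi_pi]
    rfl
  have hA : MeasurableSet {z : Fin m → ℝ | |s - ∑ j, b j * z j| ≤ r} :=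
    measurableSet_le (by fun_prop) (by fun_prop)
  have h2 : ∀ z : Fin m → ℝ, Set.indicator {v : ℝ | |v| ≤ r} (fun _ => (1 : ENNReal))
      (s - ∑ j, b j * z j) =
      Set.indicator {z : Fin m → ℝ | |s - ∑ j, b j * z j| ≤ r} (fun _ => (1 : ENNReal)) z := by
    intro z
    simp only [Set.indicator, Set.mem_ofPred_eq]
  simp_rw [h2]
  rw [h1, lintegral_indicator_const hA, one_mul, Measure.restrict_apply hA]
  congr 1
  ext z
  simp only [Set.mem_ofPred_eq, Set.mem_inter_iff]
  tauto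

/-- unimodality of the weighted sum of uniform variables -/
theorem antitone_sec (m : ℕ) (b : Fin m → ℝ) (r : ℝ) (s s' : ℝ) (hs : |s| ≤ |s'|) :
    volume {z : Fin m → ℝ | z ∈ Q m ∧ |s' - ∑ j, b j * z j| ≤ r} ≤
      volume {z : Fin m → ℝ | z ∈ Q m ∧ |s - ∑ j, b j * z j| ≤ r} := by
  rw [Ph_vol, Ph_vol]
  refine (Ph_main _ ?_ ?_ m b).2 s s' hs
  · exact measurable_const.indicator (measurableSet_le (by fun_prop) (by fun_prop))
  · intro s s' hs
    simp only [Set.indicator, Set.mem_ofPred_eq]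
    by_cases h : |s'| ≤ r
    · rw [if_pos h, if_pos (hs.trans h)]
    · rw [if_neg h]
      exact bot_le


/-- Fubini for the slab: the density of the linear form integrates to the volume of the slab -/
theorem slab_fubini (m : ℕ) (a0 : ℝ) (ha : 0 < a0) (b : Fin m → ℝ) (t : ℝ) :
    ∫⁻ s in Set.Icc (-t) t, volume {z : Fin m → ℝ | z ∈ Q m ∧ |s - ∑ j, b j * z j| ≤ a0 / 2} =
      ENNReal.ofReal a0 *
        volume {x : Fin (m + 1) → ℝ | x ∈ Q (m + 1) ∧ |a0 * x 0 + ∑ j, b j * x j.succ| ≤ t} := by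
  have hf : Continuous (fun z : Fin m → ℝ => ∑ j, b j * z j) := by fun_prop
  have hQ : IsClosed (Q m) := by
    have : Q m = ⋂ j, {z : Fin m → ℝ | |z j| ≤ 1 / 2} := by
      ext z; simp [Q]
    rw [this]
    exact isClosed_iInter fun j => isClosed_le (by fun_prop) continuous_const
  let S : Set (ℝ × (Fin m → ℝ)) :=
    {p | |p.1| ≤ t ∧ p.2 ∈ Q m ∧ |p.1 - ∑ j, b j * p.2 j| ≤ a0 / 2}
  let S' : Set (ℝ × (Fin m → ℝ)) :=
    {p | |p.1| ≤ 1 / 2 ∧ p.2 ∈ Q m ∧ |a0 * p.1 + ∑ j, b j * p.2 j| ≤ t}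
  have hS : MeasurableSet S := by
    apply IsClosed.measurableSet
    have c1 : Continuous (fun p : ℝ × (Fin m → ℝ) => |p.1|) := by fun_prop
    have c2 : Continuous (fun p : ℝ × (Fin m → ℝ) => |p.1 - ∑ j, b j * p.2 j|) := by fun_prop
    exact IsClosed.inter (isClosed_le c1 continuous_const)
      (IsClosed.inter (hQ.preimage continuous_snd) (isClosed_le c2 continuous_const))
  have hS' : MeasurableSet S' := by
    apply IsClosed.measurableSet
    have c1 : Continuous (fun p : ℝ × (Fin m → ℝ) => |p.1|) := by fun_prop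
    have c2 : Continuous (fun p : ℝ × (Fin m → ℝ) => |a0 * p.1 + ∑ j, b j * p.2 j|) := by fun_prop
    exact IsClosed.inter (isClosed_le c1 continuous_const)
      (IsClosed.inter (hQ.preimage continuous_snd) (isClosed_le c2 continuous_const))
  have hL : ∫⁻ s in Set.Icc (-t) t, volume {z : Fin m → ℝ | z ∈ Q m ∧ |s - ∑ j, b j * z j| ≤ a0 / 2}
      = ∫⁻ z : Fin m → ℝ, volume ((fun s : ℝ => (s, z)) ⁻¹' S) := by
    rw [← Measure.prod_apply_symm hS, Measure.prod_apply hS, ← lintegral_indicator measurableSet_Icc]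
    refine lintegral_congr fun s => ?_
    by_cases hs : s ∈ Set.Icc (-t) t
    · rw [Set.indicator_of_mem hs]
      congr 1
      ext z
      have hs' : |s| ≤ t := abs_le.2 hs
      simp [S, hs']
    · rw [Set.indicator_of_notMem hs]
      have : Prod.mk s ⁻¹' S = ∅ := by
        ext z
        simp only [S, Set.mem_preimage, Set.mem_ofPred_eq, Set.mem_empty_iff_false, iff_false]
        intro h
        exact hs (abs_le.1 h.1)
      rw [this, measure_empty]
  have hR : volume {x : Fin (m + 1) → ℝ | x ∈ Q (m + 1) ∧ |a0 * x 0 + ∑ j, b j * x j.succ| ≤ t}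
      = ∫⁻ z : Fin m → ℝ, volume ((fun s : ℝ => (s, z)) ⁻¹' S') := by
    rw [← Measure.prod_apply_symm hS', ← Measure.volume_eq_prod]
    rw [← (volume_preserving_piFinSuccAbove (fun _ : Fin (m + 1) => ℝ) 0).measure_preimage
      hS'.nullMeasurableSet]
    congr 1
    ext x
    simp only [S', Set.mem_ofPred_eq, Set.mem_preimage, MeasurableEquiv.piFinSuccAbove_apply, Q,
      Fin.forall_fin_succ]
    constructor
    · rintro ⟨⟨h1, h2⟩, h3⟩
      exact ⟨h1, h2, h3⟩
    · rintro ⟨h1, h2, h3⟩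
      exact ⟨⟨h1, h2⟩, h3⟩
  rw [hL, hR, ← lintegral_const_mul' _ _ ENNReal.ofReal_ne_top]
  refine lintegral_congr fun z => ?_
  have h1 : ((fun s : ℝ => (s, z)) ⁻¹' S') =
      (fun u : ℝ => a0 * u) ⁻¹' ((fun s : ℝ => s + ∑ j, b j * z j) ⁻¹' ((fun s : ℝ => (s, z)) ⁻¹' S)) := by
    ext u
    simp only [S, S', Set.mem_preimage, Set.mem_ofPred_eq, add_sub_cancel_right, abs_mul,
      abs_of_pos ha]
    constructor
    · rintro ⟨h1, h2, h3⟩
      exact ⟨h3, h2, by nlinarith⟩
    · rintro ⟨h1, h2, h3⟩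
      exact ⟨by nlinarith, h2, h1⟩
  rw [h1, Real.volume_preimage_mul_left ha.ne', measure_preimage_add_right, ← mul_assoc,
    ← ENNReal.ofReal_mul ha.le, abs_of_pos (inv_pos.2 ha), mul_inv_cancel₀ ha.ne',
    ENNReal.ofReal_one, one_mul]


/-- the slab of half width 1/2 orthogonal to the k-th diagonal does not contain the cube, k ≥ 2 -/
theorem slab_lt_one (m k : ℕ) (hk : 2 ≤ k) (hkm : k ≤ m + 1) :
    volume {x : Fin (m + 1) → ℝ | x ∈ Q (m + 1) ∧
      |∑ i : Fin (m + 1), (if (i : ℕ) < k then 1 / Real.sqrt k else 0) * x i| ≤ 1 / 2} < 1 := by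
  classical
  set S : Set (Fin (m + 1) → ℝ) := {x : Fin (m + 1) → ℝ | x ∈ Q (m + 1) ∧
      |∑ i : Fin (m + 1), (if (i : ℕ) < k then 1 / Real.sqrt k else 0) * x i| ≤ 1 / 2} with hS
  have hk0 : (2 : ℝ) ≤ (k : ℝ) := by exact_mod_cast hk
  have hsq : Real.sqrt k * Real.sqrt k = k := Real.mul_self_sqrt (by linarith)
  have hs1 : 1 < Real.sqrt k := by
    rw [Real.lt_sqrt (by norm_num)]; linarith
  have hs0 : 0 < Real.sqrt k := by linarith
  set c : ℝ := 1 / (2 * Real.sqrt k) with hc
  have hc0 : 0 < c := by rw [hc]; positivity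
  have hc1 : c < 1 / 2 := by
    rw [hc, div_lt_div_iff₀ (by positivity) (by norm_num)]
    linarith
  set B : Set (Fin (m + 1) → ℝ) := Set.pi Set.univ (fun _ => Set.Ioc c (1 / 2)) with hB
  have hBm : MeasurableSet B := MeasurableSet.univ_pi (fun _ => measurableSet_Ioc)
  have hBv : volume B = (ENNReal.ofReal (1 / 2 - c)) ^ (m + 1) := by
    rw [hB, volume_pi_pi]
    simp [Real.volume_Ioc]
  have hBpos : 0 < volume B := by
    rw [hBv]
    exact ENNReal.pow_pos (ENNReal.ofReal_pos.2 (by linarith)) _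
  have hQ : Q (m + 1) = Set.pi Set.univ (fun _ => Set.Icc (-(1 / 2 : ℝ)) (1 / 2)) := by
    ext x
    simp only [Q, Set.mem_ofPred_eq, Set.mem_pi, Set.mem_univ, true_implies, Set.mem_Icc, abs_le]
  have hQv : volume (Q (m + 1)) = 1 := by
    rw [hQ, volume_pi_pi]
    simp only [Real.volume_Icc, Finset.prod_const]
    norm_num
  have hcard : ((Finset.univ : Finset (Fin (m + 1))).filter (fun i : Fin (m + 1) => (i : ℕ) < k)).card = k := by
    rw [← Finset.card_map Fin.valEmbedding]
    have : ((Finset.univ : Finset (Fin (m + 1))).filter (fun i : Fin (m + 1) => (i : ℕ) < k)).map Fin.valEmbedding =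
        Finset.range k := by
      ext j
      simp only [Finset.mem_map, Finset.mem_filter, Finset.mem_univ, true_and,
        Fin.valEmbedding_apply, Finset.mem_range]
      constructor
      · rintro ⟨i, hi, rfl⟩; exact hi
      · intro hj
        exact ⟨⟨j, by omega⟩, hj, rfl⟩
    rw [this, Finset.card_range]
  have hdisj : Disjoint S B := by
    rw [Set.disjoint_left]
    rintro x ⟨_, hx⟩ hxB
    rw [hB, Set.mem_pi] at hxB
    have hgt : 1 / 2 < ∑ i : Fin (m + 1), (if (i : ℕ) < k then 1 / Real.sqrt k else 0) * x i := by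
      have e1 : ∑ i : Fin (m + 1), (if (i : ℕ) < k then 1 / Real.sqrt k else 0) * x i =
          ∑ i ∈ (Finset.univ : Finset (Fin (m + 1))).filter (fun i : Fin (m + 1) => (i : ℕ) < k),
            1 / Real.sqrt k * x i := by
        rw [Finset.sum_filter]
        refine Finset.sum_congr rfl (fun i _ => ?_)
        split_ifs <;> simp
      rw [e1]
      have e2 : (1 : ℝ) / 2 = ∑ i ∈ (Finset.univ : Finset (Fin (m + 1))).filter (fun i : Fin (m + 1) => (i : ℕ) < k),
            1 / Real.sqrt k * c := by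
        rw [Finset.sum_const, hcard, nsmul_eq_mul, hc]
        field_simp
        nlinarith
      rw [e2]
      apply Finset.sum_lt_sum_of_nonempty
      · rw [← Finset.card_pos, hcard]; omega
      · intro i _
        exact mul_lt_mul_of_pos_left (hxB i (Set.mem_univ _)).1 (by positivity)
    have := le_abs_self (∑ i : Fin (m + 1), (if (i : ℕ) < k then 1 / Real.sqrt k else 0) * x i)
    linarith
  have hsub : S ∪ B ⊆ Q (m + 1) := by
    rintro x (hx | hx)
    · exact hx.1
    · rw [hQ, Set.mem_pi]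
      intro i hi
      rw [hB, Set.mem_pi] at hx
      exact ⟨by linarith [(hx i hi).1], (hx i hi).2⟩
  have hsum : volume S + volume B ≤ 1 := by
    rw [← measure_union hdisj hBm, ← hQv]
    exact measure_mono hsub
  have hSf : volume S ≠ ⊤ := by
    intro h
    rw [h, top_add] at hsum
    exact absurd hsum (by simp)
  calc volume S < volume S + volume B := ENNReal.lt_add_right hSf hBpos.ne'
    _ ≤ 1 := hsum


/-- the linear map E m → E m obtained from an isometry onto the hyperplane orthogonal to the unit vector a by dropping coordinate 0 has determinant ± a 0 -/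
theorem det_drop (m : ℕ) (a : EuclideanSpace ℝ (Fin (m + 1))) (ha : ‖a‖ = 1)
    (L : EuclideanSpace ℝ (Fin m) →ₗᵢ[ℝ] EuclideanSpace ℝ (Fin (m + 1)))
    (hL : ∀ y, ∑ i, (L y) i * a i = 0) (T : EuclideanSpace ℝ (Fin m) →ₗ[ℝ] EuclideanSpace ℝ (Fin m))
    (hT : ∀ y j, (T y) j = (L y) (Fin.succ j)) :
    |LinearMap.det T| = |a 0| := by
  classical
  let M : Matrix (Fin (m+1)) (Fin (m+1)) ℝ := Matrix.of fun i j =>
    Fin.cases (a i) (fun j' => (L (EuclideanSpace.single j' 1)) i) j
  have hM0 : ∀ i, M i 0 = a i := fun i => rfl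
  have hMs : ∀ i (j : Fin m), M i j.succ = (L (EuclideanSpace.single j 1)) i := fun i j => rfl
  have hMM : M.transpose * M = 1 := by
    ext j k
    rw [Matrix.mul_apply]
    simp only [Matrix.transpose_apply]
    refine Fin.cases ?_ (fun j' => ?_) j
    · refine Fin.cases ?_ (fun k' => ?_) k
      · have h1 : ‖a‖^2 = ∑ i, a i ^ 2 := by
          rw [EuclideanSpace.real_norm_sq_eq]
        rw [ha] at h1
        simp only [hM0, Matrix.one_apply_eq]
        rw [one_pow] at h1
        rw [h1]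
        apply Finset.sum_congr rfl
        intro i _
        ring
      · rw [Matrix.one_apply_ne (by exact (Fin.succ_ne_zero k').symm)]
        rw [← hL (EuclideanSpace.single k' 1)]
        apply Finset.sum_congr rfl
        intro i _
        rw [hM0, hMs]
        ring
    · refine Fin.cases ?_ (fun k' => ?_) k
      · rw [Matrix.one_apply_ne (by exact (Fin.succ_ne_zero j'))]
        rw [← hL (EuclideanSpace.single j' 1)]
        apply Finset.sum_congr rfl
        intro i _
        rw [hM0, hMs]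
      · have h2 : inner ℝ (L (EuclideanSpace.single j' 1)) (L (EuclideanSpace.single k' 1)) =
            inner ℝ (EuclideanSpace.single j' (1:ℝ)) (EuclideanSpace.single k' (1:ℝ)) :=
          L.inner_map_map _ _
        rw [PiLp.inner_apply] at h2
        simp only [EuclideanSpace.inner_single_left, map_one, one_mul] at h2
        simp only [hMs]
        have h3 : ∑ x, (L (EuclideanSpace.single j' 1)) x * (L (EuclideanSpace.single k' 1)) x =
            ∑ i, inner ℝ ((L (EuclideanSpace.single j' 1)) i)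
              ((L (EuclideanSpace.single k' 1)) i) := by
          apply Finset.sum_congr rfl
          intro i _
          simp [mul_comm]
        rw [h3, h2]
        by_cases hjk : j' = k'
        · subst hjk
          simp
        · rw [Matrix.one_apply_ne (by intro h; exact hjk (Fin.succ_injective _ h))]
          simp [hjk]
  have hMM' : M * M.transpose = 1 := mul_eq_one_comm.1 hMM
  have hdet : |M.det| = 1 := by
    have := congrArg Matrix.det hMM
    rw [Matrix.det_mul, Matrix.det_transpose, Matrix.det_one] at this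
    rw [← sq, ← sq_abs] at this
    exact (pow_eq_one_iff_of_nonneg (abs_nonneg _) two_ne_zero).1 this
  have hadj : M.adjugate = M.det • M.transpose := by
    calc M.adjugate = M.adjugate * (M * M.transpose) := by rw [hMM', Matrix.mul_one]
      _ = (M.adjugate * M) * M.transpose := by rw [Matrix.mul_assoc]
      _ = _ := by rw [Matrix.adjugate_mul, Matrix.smul_mul, Matrix.one_mul]
  have h00 : M.adjugate 0 0 = (M.submatrix Fin.succ Fin.succ).det := by
    rw [Matrix.adjugate_fin_succ_eq_det_submatrix]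
    simp [Fin.succAbove_zero]
  have hT2 : LinearMap.det T = (M.submatrix Fin.succ Fin.succ).det := by
    rw [← LinearMap.det_toMatrix (EuclideanSpace.basisFun (Fin m) ℝ).toBasis T]
    congr 1
    ext i j
    rw [LinearMap.toMatrix_apply]
    simp only [OrthonormalBasis.coe_toBasis, OrthonormalBasis.coe_toBasis_repr_apply,
      EuclideanSpace.basisFun_apply, EuclideanSpace.basisFun_repr, Matrix.submatrix_apply]
    rw [hT, hMs]
  rw [hT2, ← h00, hadj]
  simp only [Matrix.smul_apply, Matrix.transpose_apply, smul_eq_mul]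
  rw [hM0, abs_mul, hdet, one_mul]


/-- an isometric parametrisation of the hyperplane orthogonal to a -/
theorem exists_iso (m : ℕ) (a : EuclideanSpace ℝ (Fin (m + 1))) (ha : ‖a‖ = 1) :
    ∃ L : EuclideanSpace ℝ (Fin m) →ₗᵢ[ℝ] EuclideanSpace ℝ (Fin (m + 1)),
      (∀ y, ∑ i, (L y) i * a i = 0) ∧
      ∀ x : EuclideanSpace ℝ (Fin (m + 1)), ∑ i, x i * a i = 0 → ∃ y, L y = x := by
  have hne : a ≠ 0 := by
    intro h; rw [h, norm_zero] at ha; exact zero_ne_one ha
  haveI : Fact (Module.finrank ℝ (EuclideanSpace ℝ (Fin (m + 1))) = m + 1) :=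
    ⟨by simp⟩
  have hin : ∀ x : EuclideanSpace ℝ (Fin (m + 1)), ∑ i, x i * a i = inner ℝ a x := by
    intro x
    rw [PiLp.inner_apply]
    refine Finset.sum_congr rfl fun i _ => ?_
    simp
  let b := OrthonormalBasis.fromOrthogonalSpanSingleton (𝕜 := ℝ) m hne
  refine ⟨(Submodule.subtypeₗᵢ (ℝ ∙ a)ᗮ).comp b.repr.symm.toLinearIsometry, ?_, ?_⟩
  · intro y
    rw [hin]
    exact Submodule.mem_orthogonal_singleton_iff_inner_right.mp (b.repr.symm y).2
  · intro x hx
    rw [hin] at hx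
    have hmem : x ∈ (ℝ ∙ a)ᗮ := Submodule.mem_orthogonal_singleton_iff_inner_right.mpr hx
    refine ⟨b.repr ⟨x, hmem⟩, ?_⟩
    simp

/-- Hausdorff measure on Euclidean space is a positive finite multiple of volume -/
theorem exists_const (m : ℕ) : ∃ c : ENNReal, c ≠ 0 ∧ c ≠ ⊤ ∧
    ∀ S : Set (EuclideanSpace ℝ (Fin m)), Measure.hausdorffMeasure (m : ℝ) S = c * volume S := by
  have hfr : Module.finrank ℝ (EuclideanSpace ℝ (Fin m)) = m := by simp
  have inst : (Measure.hausdorffMeasure (m : ℝ) : Measure (EuclideanSpace ℝ (Fin m))).IsAddHaarMeasure := by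
    have := MeasureTheory.isAddHaarMeasure_hausdorffMeasure (E := EuclideanSpace ℝ (Fin m))
    rwa [hfr] at this
  have h := Measure.isAddLeftInvariant_eq_smul
    (Measure.hausdorffMeasure (m : ℝ) : Measure (EuclideanSpace ℝ (Fin m))) volume
  refine ⟨(Measure.addHaarScalarFactor
    (Measure.hausdorffMeasure (m : ℝ) : Measure (EuclideanSpace ℝ (Fin m))) volume : NNReal), ?_,
    ENNReal.coe_ne_top, ?_⟩
  · intro h0
    have h1 := congrArg (fun μ : Measure (EuclideanSpace ℝ (Fin m)) => μ Set.univ) h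
    have h2 : (0 : ENNReal) < (Measure.hausdorffMeasure (m : ℝ) : Measure (EuclideanSpace ℝ (Fin m))) Set.univ :=
      (isOpen_univ).measure_pos _ Set.univ_nonempty
    simp only [Measure.smul_apply] at h1
    rw [h1, ENNReal.smul_def, smul_eq_mul, h0, zero_mul] at h2
    exact lt_irrefl _ h2
  · intro S
    conv_lhs => rw [h]
    rw [Measure.smul_apply, ENNReal.smul_def, smul_eq_mul]

theorem section_formula (m : ℕ) : ∃ c : ENNReal, c ≠ 0 ∧ c ≠ ⊤ ∧
    ∀ (a : EuclideanSpace ℝ (Fin (m + 1))), ‖a‖ = 1 → 0 < a 0 → ∀ t : ℝ,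
      Measure.hausdorffMeasure (m : ℝ)
        {x : EuclideanSpace ℝ (Fin (m + 1)) | (∀ i, |x i| ≤ 1 / 2) ∧ ∑ i, x i * a i = t} =
      c * (ENNReal.ofReal (1 / a 0) *
        volume {z : Fin m → ℝ | z ∈ Q m ∧ |t - ∑ j, a (Fin.succ j) * z j| ≤ a 0 / 2}) := by
  obtain ⟨c, hc0, hc1, hc⟩ := exists_const m
  refine ⟨c, hc0, hc1, ?_⟩
  intro a ha h0 t
  obtain ⟨L, hL, hsurj⟩ := exists_iso m a ha
  have haa : ∑ i, a i * a i = 1 := by
    have := EuclideanSpace.real_norm_sq_eq a
    rw [ha] at this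
    simp only [← pow_two]
    linarith
  have hsec : {x : EuclideanSpace ℝ (Fin (m + 1)) | (∀ i, |x i| ≤ 1 / 2) ∧ ∑ i, x i * a i = t} =
      (fun y => t • a + L y) '' {y | ∀ i, |(t • a + L y) i| ≤ 1 / 2} := by
    ext x
    simp only [Set.mem_ofPred_eq, Set.mem_image]
    constructor
    · rintro ⟨h1, h2⟩
      obtain ⟨y, hy⟩ := hsurj (x - t • a) (by
        simp only [PiLp.sub_apply, PiLp.smul_apply, smul_eq_mul, sub_mul, Finset.sum_sub_distrib,
          mul_assoc, ← Finset.mul_sum]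
        rw [haa, h2]; ring)
      refine ⟨y, ?_, ?_⟩
      · rw [hy]; intro i; simpa using h1 i
      · rw [hy]; abel
    · rintro ⟨y, hy, rfl⟩
      refine ⟨hy, ?_⟩
      simp only [PiLp.add_apply, PiLp.smul_apply, smul_eq_mul, add_mul, Finset.sum_add_distrib,
        mul_assoc, ← Finset.mul_sum]
      rw [haa, hL]; ring
  have hiso : Isometry (fun y => t • a + L y) := by
    intro x y
    rw [edist_add_left]
    exact L.isometry x y
  rw [hsec, hiso.hausdorffMeasure_image (Or.inl (Nat.cast_nonneg m)), hc]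
  congr 1
  -- the linear map
  let T : EuclideanSpace ℝ (Fin m) →ₗ[ℝ] EuclideanSpace ℝ (Fin m) :=
    { toFun := fun y => WithLp.toLp 2 (fun j => (L y) (Fin.succ j))
      map_add' := by
        intro x y
        ext j
        simp
      map_smul' := by
        intro r y
        ext j
        simp }
  have hT : ∀ y j, (T y) j = (L y) (Fin.succ j) := fun y j => rfl
  have hdet := det_drop m a ha L hL T hT
  have hdet0 : LinearMap.det T ≠ 0 := by
    intro h
    rw [h, abs_zero] at hdet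
    exact h0.ne' (abs_eq_zero.1 hdet.symm)
  let w : EuclideanSpace ℝ (Fin m) := WithLp.toLp 2 (fun j => t * a (Fin.succ j))
  let Z : Set (EuclideanSpace ℝ (Fin m)) := {z | (∀ j, |z j| ≤ 1 / 2) ∧
    |t - ∑ j, a (Fin.succ j) * z j| ≤ a 0 / 2}
  have hset : {y : EuclideanSpace ℝ (Fin m) | ∀ i, |(t • a + L y) i| ≤ 1 / 2} =
      T ⁻¹' ((fun z => z + w) ⁻¹' Z) := by
    ext y
    simp only [Set.mem_ofPred_eq, Set.mem_preimage, Z]
    have hz : ∀ j, (T y + w) j = (t • a + L y) (Fin.succ j) := by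
      intro j
      rw [PiLp.add_apply, hT, PiLp.add_apply, PiLp.smul_apply, smul_eq_mul]
      change _ + t * a (Fin.succ j) = _
      ring
    have hx0 : t - ∑ j, a (Fin.succ j) * (T y + w) j = a 0 * (t • a + L y) 0 := by
      have h1 : ∑ i, (t • a + L y) i * a i = t := by
        simp only [PiLp.add_apply, PiLp.smul_apply, smul_eq_mul, add_mul,
          Finset.sum_add_distrib, mul_assoc, ← Finset.mul_sum]
        rw [haa, hL]; ring
      rw [Fin.sum_univ_succ] at h1
      have h2 : ∑ j, a (Fin.succ j) * (T y + w) j =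
          ∑ i : Fin m, (t • a + L y) (Fin.succ i) * a (Fin.succ i) := by
        apply Finset.sum_congr rfl
        intro j _
        rw [hz]; ring
      rw [h2]
      linarith
    rw [hx0, abs_mul, abs_of_pos h0]
    constructor
    · intro h
      refine ⟨fun j => ?_, ?_⟩
      · rw [hz]; exact h _
      · have := h 0
        nlinarith
    · rintro ⟨h1, h2⟩ i
      refine Fin.cases ?_ (fun j => ?_) i
      · have : a 0 * |(t • a + L y) 0| ≤ a 0 * (1 / 2) := by linarith
        exact le_of_mul_le_mul_left this h0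
      · rw [← hz]; exact h1 j
  rw [hset, Measure.addHaar_preimage_linearMap _ hdet0, measure_preimage_add_right]
  have hd : |(LinearMap.det T)⁻¹| = 1 / a 0 := by
    rw [abs_inv, hdet, abs_of_pos h0, one_div]
  rw [hd]
  congr 1
  have hv := (EuclideanSpace.volume_preserving_symm_measurableEquiv_toLp (Fin m))
  have hpre : Z = (MeasurableEquiv.toLp 2 (Fin m → ℝ)).symm ⁻¹'
      {z : Fin m → ℝ | z ∈ Q m ∧ |t - ∑ j, a (Fin.succ j) * z j| ≤ a 0 / 2} := rfl
  rw [hpre]
  exact hv.measure_preimage_equiv _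


theorem vol_Q (m : ℕ) : volume (Q m) = 1 := by
  have : Q m = Set.Icc (fun _ => -(1 / 2) : Fin m → ℝ) (fun _ => 1 / 2) := by
    ext z
    simp only [Q, Set.mem_Icc, Pi.le_def]
    constructor
    · intro h
      exact ⟨fun j => (abs_le.1 (h j)).1, fun j => (abs_le.1 (h j)).2⟩
    · intro h j
      exact abs_le.2 ⟨h.1 j, h.2 j⟩
  rw [this, Real.volume_Icc_pi]
  norm_num

/-- the density of a weighted sum is bounded by the mass of the slab -/
theorem density_bound (m : ℕ) (a0 : ℝ) (ha : 0 < a0) (b : Fin m → ℝ) (t : ℝ) (ht : 0 < t) :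
    ENNReal.ofReal (2 * t) * (ENNReal.ofReal (1 / a0) *
      volume {z : Fin m → ℝ | z ∈ Q m ∧ |t - ∑ j, b j * z j| ≤ a0 / 2}) ≤
      volume {x : Fin (m + 1) → ℝ | x ∈ Q (m + 1) ∧ |a0 * x 0 + ∑ j, b j * x j.succ| ≤ t} := by
  have h1 : ∫⁻ s in Set.Icc (-t) t, volume {z : Fin m → ℝ | z ∈ Q m ∧ |t - ∑ j, b j * z j| ≤ a0 / 2} ≤
      ∫⁻ s in Set.Icc (-t) t, volume {z : Fin m → ℝ | z ∈ Q m ∧ |s - ∑ j, b j * z j| ≤ a0 / 2} := by
    apply setLIntegral_mono' measurableSet_Icc
    intro s hs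
    apply antitone_sec
    rw [abs_of_pos ht]
    exact abs_le.2 hs
  rw [slab_fubini m a0 ha b t, lintegral_const, Measure.restrict_apply MeasurableSet.univ,
    Set.univ_inter, Real.volume_Icc] at h1
  have e1 : t - -t = 2 * t := by ring
  rw [e1] at h1
  calc ENNReal.ofReal (2 * t) * (ENNReal.ofReal (1 / a0) *
      volume {z : Fin m → ℝ | z ∈ Q m ∧ |t - ∑ j, b j * z j| ≤ a0 / 2})
      = ENNReal.ofReal (1 / a0) * (volume {z : Fin m → ℝ | z ∈ Q m ∧ |t - ∑ j, b j * z j| ≤ a0 / 2} *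
        ENNReal.ofReal (2 * t)) := by ring
    _ ≤ ENNReal.ofReal (1 / a0) * (ENNReal.ofReal a0 *
        volume {x : Fin (m + 1) → ℝ | x ∈ Q (m + 1) ∧ |a0 * x 0 + ∑ j, b j * x j.succ| ≤ t}) := by
        gcongr
    _ = _ := by
        rw [← mul_assoc, ← ENNReal.ofReal_mul (by positivity), one_div,
          inv_mul_cancel₀ ha.ne', ENNReal.ofReal_one, one_mul]



end Pool.Agent.Helper513.CU
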